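import Pool.Agent.N321.KT.Defs

/-!
# Project KT (helper321), leaf EX: existence in all dimensions at least three
-/

set_option autoImplicit false

namespace Pool.Agent.N973.KT

open Pool.Agent.N321.KT

/-! ### transport along an equivalence -/

section transport

variable {ι ι' : Type} (σ : ι ≃ ι')

/-- relabelled jets -/
def push {R : Type} (u : Jet ι R) : Jet ι' R := fun w => u (w.map σ.symm)

theorem D_push {R : Type} (i : ι') (u : Jet ι R) : D i (push σ u) = push σ (D (σ.symm i) u) := rfl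

theorem mul_push {R : Type} [CommRing R] (w : List ι') (u v : Jet ι R) :
    mul (push σ u) (push σ v) w = mul u v (w.map σ.symm) := by
  induction w generalizing u v with
  | nil => rfl
  | cons i w ih =>
    simp only [mul, D_push, ih, List.map_cons]

theorem om_push [Fintype ι] [Fintype ι'] (K : ι → ι → Jet ι ℝ) (v : Jet ι ℝ) (i j : ι')
    (w : List ι') :
    om (fun s t => push σ (K (σ.symm s) (σ.symm t))) (push σ v) i j w =
      om K v (σ.symm i) (σ.symm j) (w.map σ.symm) := by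
  have h : ∀ (j : ι') (w : List ι'),
      th (fun s t => push σ (K (σ.symm s) (σ.symm t))) (push σ v) j w =
        th K v (σ.symm j) (w.map σ.symm) := by
    intro j w
    simp only [th, D_push, mul_push]
    exact Equiv.sum_comp σ.symm (fun s => mul (K s (σ.symm j)) (D s v) (w.map σ.symm))
  simp only [om, h, List.map_cons]

theorem pure_push [Fintype ι] [Fintype ι'] (m : ℕ) (K : ι → ι → Jet ι ℝ)
    (h : Pure m (fun s t => push σ (K (σ.symm s) (σ.symm t)))) : Pure m K := by
  intro v hv w hw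
  obtain ⟨h1, h2, h3⟩ := hv
  have hmm : ∀ w : List ι, (w.map σ).map σ.symm = w := fun w => by
    simp [List.map_map, Function.comp_def]
  have hmem : push σ v ∈ Ker m (fun s t => push σ (K (σ.symm s) (σ.symm t))) := by
    refine ⟨fun w w' hp => h1 _ _ (hp.map _), fun w hw => ?_, fun w hw i j => ?_⟩
    · have := h2 (w.map σ.symm) hw
      simpa using this
    · rw [om_push]
      exact h3 _ (by simpa using hw) _ _
  have hw' : push σ v (w.map σ) ≠ 0 := by
    change v ((w.map σ).map σ.symm) ≠ 0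
    rwa [hmm]
  obtain ⟨g1, g2⟩ := h _ hmem _ hw'
  refine ⟨by simpa using g1, fun i hi j hj => ?_⟩
  exact σ.injective (g2 (σ i) (List.mem_map_of_mem hi) (σ j) (List.mem_map_of_mem hj))

theorem transport [Fintype ι] [DecidableEq ι] [Fintype ι'] [DecidableEq ι'] (m : ℕ) (e : ι → ℝ)
    (h : ∃ (d : ι' → ℝ) (b : ι' → ι' → ι' → ℝ), Function.Injective d ∧
      Pure m (Kjet d (lin (fun i => e (σ.symm i)) b))) :
    ∃ (d : ι → ℝ) (b : ι → ι → ι → ℝ), Function.Injective d ∧ Pure m (Kjet d (lin e b)) := by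
  obtain ⟨d, b, hd, hp⟩ := h
  refine ⟨fun i => d (σ i), fun i j k => b (σ i) (σ j) (σ k), hd.comp σ.injective, ?_⟩
  apply pure_push σ
  convert! hp using 1
  funext s t w
  match w with
  | [] => simp [push, Kjet]
  | [l] => simp [push, Kjet, lin]
  | _ :: _ :: _ => simp [push, Kjet]

end transport

theorem cond {n : ℕ} (e : Fin n → ℝ) (he : ∀ i, e i ^ 2 = 1) (d : Fin n → ℝ)
    (b : Fin n → Fin n → Fin n → ℝ) (k i j : Fin n)
    (h : (d k - d j) * ((b k j i - b k i j) + (b i j k - b i k j)) ≠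
      (d k - d i) * ((b k i j - b k j i) + (b j i k - b j k i))) :
    (d k - d j) * lin e b k i j ≠ (d k - d i) * lin e b k j i := by
  have h0 : ∀ i, e i ≠ 0 := fun i hi => by
    have := he i
    rw [hi] at this; norm_num at this
  intro hh
  apply h
  have h1 : e i * e j * ((d k - d j) * ((b k j i - b k i j) + (b i j k - b i k j))) =
      e i * e j * ((d k - d i) * ((b k i j - b k j i) + (b j i k - b j k i))) := by
    simp only [lin] at hh
    linarith
  exact mul_left_cancel₀ (mul_ne_zero (h0 i) (h0 j)) h1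

theorem inj4 : Function.Injective (![0, 1, 4, 9] : Fin 4 → ℝ) := by
  intro i j h
  fin_cases i <;> fin_cases j <;> first | rfl | (norm_num at h)

theorem inj3 : Function.Injective (![0, 1, 3] : Fin 3 → ℝ) := by
  intro i j h
  fin_cases i <;> fin_cases j <;> first | rfl | (norm_num at h)

theorem inj5 : Function.Injective (![0, 1, 3, 7, 12] : Fin 5 → ℝ) := by
  intro i j h
  fin_cases i <;> fin_cases j <;> first | rfl | (norm_num at h)

theorem condZ {n : ℕ} (e : Fin n → ℝ) (he : ∀ i, e i ^ 2 = 1) (d : Fin n → ℝ)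
    (b : Fin n → Fin n → Fin n → ℝ) (dz : Fin n → ℤ) (bz : Fin n → Fin n → Fin n → ℤ)
    (hd : ∀ i, d i = dz i) (hb : ∀ i j k, b i j k = bz i j k)
    (h : ∀ k, ∃ i j, i ≠ k ∧ j ≠ k ∧ i ≠ j ∧
      (dz k - dz j) * ((bz k j i - bz k i j) + (bz i j k - bz i k j)) ≠
      (dz k - dz i) * ((bz k i j - bz k j i) + (bz j i k - bz j k i))) (k : Fin n) :
    ∃ i j, i ≠ k ∧ j ≠ k ∧ i ≠ j ∧
      (d k - d j) * lin e b k i j ≠ (d k - d i) * lin e b k j i := by
  obtain ⟨i, j, h1, h2, h3, h4⟩ := h k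
  refine ⟨i, j, h1, h2, h3, cond e he d b k i j ?_⟩
  simp only [hd, hb]
  exact_mod_cast h4

/-- integral coefficients -/
def b4z (i j k : Fin 4) : ℤ := if (i, j, k) ∈ [(2, 0, 1), (3, 1, 3), (3, 0, 1)] then 1 else 0

/-- integral coefficients -/
def b5z (i j k : Fin 5) : ℤ :=
  if (i, j, k) ∈ [(3, 0, 2), (1, 0, 4), (4, 0, 2), (3, 2, 4), (1, 0, 2)] then 1 else 0

theorem cond4 (e : Fin 4 → ℝ) (he : ∀ i, e i ^ 2 = 1) (k : Fin 4) :
    ∃ i j, i ≠ k ∧ j ≠ k ∧ i ≠ j ∧
      ((![0, 1, 4, 9] : Fin 4 → ℝ) k - (![0, 1, 4, 9] : Fin 4 → ℝ) j) * lin e b4 k i j ≠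
        ((![0, 1, 4, 9] : Fin 4 → ℝ) k - (![0, 1, 4, 9] : Fin 4 → ℝ) i) * lin e b4 k j i := by
  refine condZ e he _ _ ![0, 1, 4, 9] b4z ?_ ?_ (by decide +kernel) k
  · intro i
    fin_cases i <;> simp
  · intro i j k
    simp only [b4, b4z]
    split_ifs <;> simp

theorem cond5 (e : Fin 5 → ℝ) (he : ∀ i, e i ^ 2 = 1) (k : Fin 5) :
    ∃ i j, i ≠ k ∧ j ≠ k ∧ i ≠ j ∧
      ((![0, 1, 3, 7, 12] : Fin 5 → ℝ) k - (![0, 1, 3, 7, 12] : Fin 5 → ℝ) j) * lin e b5 k i j ≠
        ((![0, 1, 3, 7, 12] : Fin 5 → ℝ) k - (![0, 1, 3, 7, 12] : Fin 5 → ℝ) i) *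
          lin e b5 k j i := by
  refine condZ e he _ _ ![0, 1, 3, 7, 12] b5z ?_ ?_ (by decide +kernel) k
  · intro i
    fin_cases i <;> simp
  · intro i j k
    simp only [b5, b5z]
    split_ifs <;> simp

theorem t (h3 : S_N3) (h4 : S_N4) (h5 : S_N5) (hm : S_MONO) (hs : S_SUM) : S_EX := by
  have key : ∀ n : ℕ, 3 ≤ n → ∀ (ι : Type) [Fintype ι] [DecidableEq ι] (e : ι → ℝ),
      Fintype.card ι = n → (∀ i, e i ^ 2 = 1) → ∃ (d : ι → ℝ) (b : ι → ι → ι → ℝ),
        Function.Injective d ∧ Pure 6 (Kjet d (lin e b)) := by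
    intro n
    induction n using Nat.strong_induction_on with
    | _ n ih =>
      intro hn ι _ _ e hc he
      obtain rfl | rfl | rfl | h6 : n = 3 ∨ n = 4 ∨ n = 5 ∨ 6 ≤ n := by omega
      · exact transport (Fintype.equivFinOfCardEq hc) 6 e
          ⟨_, _, inj3, h3 _ fun i => he _⟩
      · refine transport (Fintype.equivFinOfCardEq hc) 6 e ⟨_, b4, inj4, ?_⟩
        have c4 := cond4 (fun i => e ((Fintype.equivFinOfCardEq hc).symm i)) fun i => he _
        exact hm _ 5 _ _ (by norm_num) inj4 c4 (hm _ 4 _ _ (by norm_num) inj4 c4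
          (h4 _ fun i => he _))
      · refine transport (Fintype.equivFinOfCardEq hc) 6 e ⟨_, b5, inj5, ?_⟩
        have c5 := cond5 (fun i => e ((Fintype.equivFinOfCardEq hc).symm i)) fun i => he _
        exact hm _ 5 _ _ (by norm_num) inj5 c5 (hm _ 4 _ _ (by norm_num) inj5 c5
          (hm _ 3 _ _ (by norm_num) inj5 c5 (h5 _ fun i => he _)))
      · have hcard : Fintype.card ι = Fintype.card (Fin 3 ⊕ Fin (n - 3)) := by
          simp [hc]; omega
        let σ : ι ≃ Fin 3 ⊕ Fin (n - 3) := Fintype.equivOfCardEq hcard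
        apply transport σ 6 e
        obtain ⟨d₂, b₂, hd₂, hp₂⟩ := ih (n - 3) (by omega) (by omega) (Fin (n - 3))
          (fun i => e (σ.symm (Sum.inr i))) (by simp) (fun i => he _)
        obtain ⟨d, b, hd, hp⟩ := hs (Fin 3) (Fin (n - 3)) 6 (fun i => e (σ.symm (Sum.inl i)))
          (fun i => e (σ.symm (Sum.inr i))) _ _ _ _ (by norm_num) inj3 hd₂
          (h3 _ fun i => he _) hp₂
        refine ⟨d, b, hd, ?_⟩
        have : (fun i => e (σ.symm i)) =
            Sum.elim (fun i => e (σ.symm (Sum.inl i))) (fun i => e (σ.symm (Sum.inr i))) := by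
          funext i
          cases i <;> rfl
        rw [this]
        exact hp
  intro ι _ _ e hc he
  exact key _ hc ι e rfl he

end Pool.Agent.N973.KT
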